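import Pool.Agent.Helper11_COV.Stmt

set_option autoImplicit false

/-!
HYB: the hybrid induction.
-/

namespace Pool.Agent.COV.H91

open Finset Classical

lemma po_sum (X : Sys)
    (hlin : ∀ n F G (u w : ℝ) x, PO X n (fun y => u * F y + w * G y) x = u * PO X n F x + w * PO X n G x)
    (n : ℕ) (f0 : (ℕ → ℕ) → ℝ) (u : ℕ → ℝ) (g : ℕ → (ℕ → ℕ) → ℝ) (x : ℕ → ℕ) (m : ℕ) :
    PO X n (fun y => f0 y + ∑ j ∈ range m, u j * (g (j + 1) y - g j y)) x =
      PO X n f0 x + ∑ j ∈ range m, u j * (PO X n (g (j + 1)) x - PO X n (g j) x) := by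
  induction m with
  | zero => simp
  | succ m ih =>
    have h1 : (fun y => f0 y + ∑ j ∈ range (m + 1), u j * (g (j + 1) y - g j y)) =
        (fun y => 1 * (f0 y + ∑ j ∈ range m, u j * (g (j + 1) y - g j y)) +
          1 * (u m * g (m + 1) y + (- u m) * g m y)) := by
      funext y
      rw [Finset.sum_range_succ]
      ring
    rw [h1, hlin n (fun y => f0 y + ∑ j ∈ range m, u j * (g (j + 1) y - g j y))
      (fun y => u m * g (m + 1) y + (- u m) * g m y) 1 1 x, ih,
      hlin n (g (m + 1)) (g m) (u m) (- u m) x, Finset.sum_range_succ]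
    ring

lemma bx_update (a : ℕ → ℤ) (i d : ℕ) (hi : i.Prime) (x : ℕ → ℕ) (y : ℕ) :
    BX a (i + 1) d (Function.update x i y) ↔
      BX a i d x ∧ (y : ℤ) ≡ a d [ZMOD ((i ^ d.factorization i : ℕ) : ℤ)] := by
  constructor
  · intro h
    refine ⟨fun p hp hpi => ?_, ?_⟩
    · have := h p hp (by omega)
      rwa [Function.update_of_ne (by omega)] at this
    · by_cases hid : i ∈ d.primeFactors
      · have := h i hid (by omega)
        rwa [Function.update_self] at this
      · have h0 : d.factorization i = 0 := by
          rw [← Finsupp.notMem_support_iff, Nat.support_factorization]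
          exact hid
        rw [h0, pow_zero, Nat.cast_one]
        exact Int.modEq_one
  · rintro ⟨h1, h2⟩ p hp hpi
    by_cases hpe : p = i
    · subst hpe
      rw [Function.update_self]
      exact h2
    · rw [Function.update_of_ne hpe]
      exact h1 p hp (by omega)

lemma key (hONE : OneStmt) (hAVR : AvrStmt) (X : Sys) (hδ : ∀ p, 0 ≤ X.δ p ∧ X.δ p < 1)
    (hc : ∀ d ∈ X.S, ∀ p, d.factorization p ≤ X.c p) (k : ℕ) (t : ℝ) (i : ℕ)
    (hi : i.Prime) (hik : i < k) (x v : ℕ → ℕ) :
    av X.c i (fun y => rho X i y * HH X k t (i + 1) y v) x ≤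
      VO X.c (fun p => 1 / (1 - X.δ p)) i (fun v' => HH X k t i x v') v := by
  obtain ⟨hA1, hA2, -, hA4⟩ := hAVR X hδ
  set I : Finset ℕ := (LS X.S k).filter (fun d => BX X.a i d x ∧
    ∀ p ∈ d.primeFactors, i + 1 ≤ p → p < k → d.factorization p ≤ v p) with hI
  have hIS : ∀ d ∈ I, d ∈ X.S := by
    intro d hd
    rw [hI, mem_filter, LS, mem_filter] at hd
    exact hd.1.1
  have h := hONE I (fun d => 1 / (k : ℝ) ^ (d.factorization k)) (fun d => d.factorization i)
    (fun d y => (y : ℤ) ≡ X.a d [ZMOD ((i ^ d.factorization i : ℕ) : ℤ)]) (i ^ X.c i) (X.c i)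
    (i : ℝ) (1 / (1 - X.δ i)) t (fun y => rho X i (Function.update x i y))
    (pow_pos hi.pos _) (by exact_mod_cast hi.pos) (fun d _ => by positivity)
    (fun d hd => hc d (hIS d hd) i) ?_ ?_ ?_ ?_
  · have hl : av X.c i (fun y => rho X i y * HH X k t (i + 1) y v) x =
        (∑ y ∈ range (i ^ X.c i), rho X i (Function.update x i y) *
          max 0 ((∑ d ∈ I.filter (fun d => (y : ℤ) ≡ X.a d [ZMOD ((i ^ d.factorization i : ℕ) : ℤ)]),
            1 / (k : ℝ) ^ (d.factorization k)) - t)) / ((i ^ X.c i : ℕ) : ℝ) := by
      unfold av HH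
      congr 1
      apply Finset.sum_congr rfl
      intro y _
      dsimp only
      congr 3
      apply Finset.sum_congr _ (fun _ _ => rfl)
      ext d
      rw [hI, mem_filter, mem_filter, mem_filter, bx_update X.a i d hi]
      tauto
    have hr : VO X.c (fun p => 1 / (1 - X.δ p)) i (fun v' => HH X k t i x v') v =
        max 0 ((∑ d ∈ I.filter (fun d => d.factorization i ≤ 0), 1 / (k : ℝ) ^ (d.factorization k)) - t) +
        ∑ j ∈ range (X.c i), 1 / (1 - X.δ i) / (i : ℝ) ^ (j + 1) *
          (max 0 ((∑ d ∈ I.filter (fun d => d.factorization i ≤ j + 1),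
              1 / (k : ℝ) ^ (d.factorization k)) - t) -
            max 0 ((∑ d ∈ I.filter (fun d => d.factorization i ≤ j),
              1 / (k : ℝ) ^ (d.factorization k)) - t)) := by
      have hh : ∀ j, HH X k t i x (Function.update v i j) =
          max 0 ((∑ d ∈ I.filter (fun d => d.factorization i ≤ j),
            1 / (k : ℝ) ^ (d.factorization k)) - t) := by
        intro j
        unfold HH
        congr 2
        apply Finset.sum_congr _ (fun _ _ => rfl)
        ext d
        rw [hI, mem_filter, mem_filter, mem_filter]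
        constructor
        · rintro ⟨h1, h2, h3⟩
          refine ⟨⟨h1, h2, ?_⟩, ?_⟩
          · intro p hp hip hpk
            have := h3 p hp (by omega) hpk
            rwa [Function.update_of_ne (by omega)] at this
          · by_cases hid : i ∈ d.primeFactors
            · have := h3 i hid le_rfl hik
              rwa [Function.update_self] at this
            · have h0 : d.factorization i = 0 := by
                rw [← Finsupp.notMem_support_iff, Nat.support_factorization]
                exact hid
              omega
        · rintro ⟨⟨h1, h2, h3⟩, h4⟩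
          refine ⟨h1, h2, ?_⟩
          intro p hp hip hpk
          by_cases hpe : p = i
          · subst hpe
            rw [Function.update_self]
            exact h4
          · rw [Function.update_of_ne hpe]
            exact h3 p hp (by omega) hpk
      unfold VO
      simp only [hh]
    rw [hl, hr]
    convert h
  · intro d _ hd y
    show (y : ℤ) ≡ X.a d [ZMOD ((i ^ d.factorization i : ℕ) : ℤ)]
    rw [hd, pow_zero, Nat.cast_one]
    exact Int.modEq_one
  · intro d hd
    have h4 := hA4 i (d.factorization i) (X.c i) (X.a d) hi (hc d (hIS d hd) i)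
    refine le_of_eq ?_
    convert h4
  · intro y
    exact hA2 i _ hi
  · have := hA1 i x hi
    unfold av at this
    exact this

/-- HYB -/
theorem hyb (hONE : OneStmt) (hAVR : AvrStmt) (hPOP : PopStmt) (hVVD : VvdStmt) : HybStmt := by
  intro X hδ hν hc k hk t i
  obtain ⟨hP1, hP2, -, -⟩ := hPOP X hδ
  obtain ⟨hV1, -, -⟩ := hVVD
  induction i with
  | zero =>
    intro _ x v
    exact le_rfl
  | succ i ih =>
    intro hik x v
    by_cases hi : i.Prime
    · have e1 : PO X (i + 1) (fun y => HH X k t (i + 1) y v) x =
          PO X i (fun x => av X.c i (fun y => rho X i y * HH X k t (i + 1) y v) x) x := by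
        simp only [PO, if_pos hi]
      have e2 : VV X.c (fun p => 1 / (1 - X.δ p)) (i + 1) (fun v' => HH X k t 0 x v') v =
          VO X.c (fun p => 1 / (1 - X.δ p)) i
            (VV X.c (fun p => 1 / (1 - X.δ p)) i (fun v' => HH X k t 0 x v')) v := by
        simp only [VV, if_pos hi]
      rw [e1, e2]
      refine le_trans (hP1 i _ (fun x => VO X.c (fun p => 1 / (1 - X.δ p)) i
        (fun v' => HH X k t i x v') v) x
        (fun y => key hONE hAVR X hδ hc k t i hi (by omega) y v)) ?_
      have e3 : PO X i (fun x => VO X.c (fun p => 1 / (1 - X.δ p)) i (fun v' => HH X k t i x v') v) x =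
          VO X.c (fun p => 1 / (1 - X.δ p)) i (fun v' => PO X i (fun x => HH X k t i x v') x) v := by
        unfold VO
        exact po_sum X hP2 i (fun x => HH X k t i x (Function.update v i 0))
          (fun j => 1 / (1 - X.δ i) / (i : ℝ) ^ (j + 1))
          (fun j x => HH X k t i x (Function.update v i j)) x (X.c i)
      rw [e3]
      refine hV1 X.c (fun p => 1 / (1 - X.δ p)) i _ _ v hi ?_ ?_ ?_
      · have := (hδ i).2
        exact one_div_nonneg.2 (by linarith)
      · exact hν i hi
      · intro v'
        exact ih (by omega) x v'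
    · have e1 : PO X (i + 1) (fun y => HH X k t (i + 1) y v) x =
          PO X i (fun y => HH X k t i y v) x := by
        simp only [PO, if_neg hi]
        congr 1
        funext y
        unfold HH
        congr 2
        apply Finset.sum_congr _ (fun _ _ => rfl)
        ext d
        rw [mem_filter, mem_filter]
        have hne : ∀ p ∈ d.primeFactors, p ≠ i := by
          intro p hp hpi
          exact hi (hpi ▸ Nat.prime_of_mem_primeFactors hp)
        constructor
        · rintro ⟨h1, h2, h3⟩
          refine ⟨h1, fun p hp hpi => h2 p hp (by omega), fun p hp hip hpk => h3 p hp ?_ hpk⟩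
          have := hne p hp
          omega
        · rintro ⟨h1, h2, h3⟩
          refine ⟨h1, fun p hp hpi => h2 p hp ?_, fun p hp hip hpk => h3 p hp (by omega) hpk⟩
          have := hne p hp
          omega
      have e2 : VV X.c (fun p => 1 / (1 - X.δ p)) (i + 1) (fun v' => HH X k t 0 x v') v =
          VV X.c (fun p => 1 / (1 - X.δ p)) i (fun v' => HH X k t 0 x v') v := by
        simp only [VV, if_neg hi]
      rw [e1, e2]
      exact ih (by omega) x v

end Pool.Agent.COV.H91
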