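import Pool.Agent.Helper11_COV.Stmt

set_option autoImplicit false

/-!
TAI: the tail.
-/

namespace Pool.Agent.COV.H91

open Finset Classical

/-- one term of the cost -/
noncomputable def term (c : ℕ → ℕ) (W t : ℕ → ℝ) (p : ℕ) : ℝ :=
  W p / (1 - W p * t p) * DD c (nu W t) p (fun x => max 0 ((x : ℝ) - t p))

lemma cost_succ (c : ℕ → ℕ) (W t : ℕ → ℝ) (N : ℕ) :
    cost c W t (N + 1) = cost c W t N + if N.Prime then term c W t N else 0 := by
  unfold cost term
  rw [Finset.range_add_one, Finset.filter_insert]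
  split_ifs with h
  · rw [Finset.sum_insert (by simp)]
    ring
  · ring

lemma wt_nonneg (c : ℕ → ℕ) (p : ℕ) : 0 ≤ wt c p := by
  unfold wt
  exact Finset.sum_nonneg (fun j _ => by positivity)

lemma DD_nonneg (hD2 : ∀ (c : ℕ → ℕ) (ν : ℕ → ℝ) (n : ℕ) (f g : ℕ → ℝ),
      (∀ p < n, p.Prime → 0 ≤ ν p ∧ ν p ≤ p) → (∀ x, 1 ≤ x → f x ≤ g x) → DD c ν n f ≤ DD c ν n g)
    (hD3 : ∀ (c : ℕ → ℕ) (ν : ℕ → ℝ) (n : ℕ) (r : ℝ), DD c ν n (fun _ => r) = r)
    (c : ℕ → ℕ) (ν : ℕ → ℝ) (n : ℕ) (f : ℕ → ℝ)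
    (hν : ∀ p, p.Prime → 0 ≤ ν p ∧ ν p ≤ p) (hf : ∀ x, 0 ≤ f x) : 0 ≤ DD c ν n f := by
  have := hD2 c ν n (fun _ => 0) f (fun p _ hp => hν p hp) (fun x _ => hf x)
  rwa [hD3] at this

/-- growth over one block and cost of one block -/
lemma block (E G : ℕ → ℝ) (hE0 : ∀ q, 0 ≤ E q) (k : ℕ) (hk : 15 ≤ k)
    (hchb : k * ((Ioc (2 ^ k) (2 ^ (k + 1))).filter Nat.Prime).card ≤ 2 ^ (k + 1))
    (hE : ∀ q, 2 ^ k < q → E (q + 1) ≤ E q * (if q.Prime then 1 + 4.001 / 2 ^ k else 1))
    (hG : ∀ q, 2 ^ k < q → G (q + 1) ≤ G q + if q.Prime then 4 / 3 * E q / ((q : ℝ) - 1) ^ 2 else 0) :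
    E (2 ^ (k + 1) + 1) ≤ E (2 ^ k + 1) * Real.exp (8.01 / k) ∧
    G (2 ^ (k + 1) + 1) ≤ G (2 ^ k + 1) +
      8 / 3 * (E (2 ^ k + 1) * Real.exp (8.01 / k)) / (k * 2 ^ k) := by
  have hkpos : (0 : ℝ) < k := by
    have : 0 < k := by omega
    exact_mod_cast this
  set P : ℕ := ((Ioc (2 ^ k) (2 ^ (k + 1))).filter Nat.Prime).card with hP
  set r : ℝ := 1 + 4.001 / 2 ^ k with hr
  have hr1 : 1 ≤ r := by
    rw [hr]
    have : (0 : ℝ) ≤ 4.001 / 2 ^ k := by positivity
    linarith
  -- growth inside the block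
  have hgrow : ∀ j, j ≤ 2 ^ k → E (2 ^ k + 1 + j) ≤
      E (2 ^ k + 1) * r ^ ((Ioc (2 ^ k) (2 ^ k + j)).filter Nat.Prime).card := by
    intro j
    induction j with
    | zero => intro _; simp
    | succ j ih =>
      intro hj
      have h1 := ih (by omega)
      have h2 := hE (2 ^ k + 1 + j) (by omega)
      have h3 : Ioc (2 ^ k) (2 ^ k + (j + 1)) = insert (2 ^ k + 1 + j) (Ioc (2 ^ k) (2 ^ k + j)) := by
        ext a
        simp only [mem_Ioc, mem_insert]
        omega
      have h4 : (2 ^ k + 1 + j) ∉ (Ioc (2 ^ k) (2 ^ k + j)).filter Nat.Prime := by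
        simp only [mem_filter, mem_Ioc]
        omega
      rw [h3, Finset.filter_insert]
      have h5 : 2 ^ k + 1 + (j + 1) = 2 ^ k + 1 + j + 1 := by ring
      rw [h5]
      split_ifs with hpr
      · rw [Finset.card_insert_of_notMem h4, pow_succ, ← mul_assoc]
        rw [if_pos hpr] at h2
        exact le_trans h2 (mul_le_mul_of_nonneg_right h1 (by linarith))
      · rw [if_neg hpr, mul_one] at h2
        exact le_trans h2 h1
  have hcardle : ∀ j, j ≤ 2 ^ k → ((Ioc (2 ^ k) (2 ^ k + j)).filter Nat.Prime).card ≤ P := by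
    intro j hj
    rw [hP]
    apply Finset.card_le_card
    apply Finset.filter_subset_filter
    apply Finset.Ioc_subset_Ioc_right
    rw [pow_succ]
    omega
  have hPle : (k : ℝ) * P ≤ 2 * 2 ^ k := by
    have : k * P ≤ 2 * 2 ^ k := by rw [pow_succ] at hchb; linarith
    exact_mod_cast this
  have h2k : (0 : ℝ) < 2 ^ k := by positivity
  have hexp : r ^ P ≤ Real.exp (8.01 / k) := by
    have h1 : r ≤ Real.exp (4.001 / 2 ^ k) := by
      rw [hr]
      have := Real.add_one_le_exp ((4.001 : ℝ) / 2 ^ k)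
      linarith
    calc r ^ P ≤ (Real.exp (4.001 / 2 ^ k)) ^ P := pow_le_pow_left₀ (by linarith) h1 P
      _ = Real.exp (P * (4.001 / 2 ^ k)) := by rw [← Real.exp_nat_mul]
      _ ≤ Real.exp (8.01 / k) := by
        apply Real.exp_le_exp.2
        rw [le_div_iff₀ hkpos]
        have : (P : ℝ) * (4.001 / 2 ^ k) * k = (k * P) * 4.001 / 2 ^ k := by ring
        rw [this, div_le_iff₀ h2k]
        nlinarith
  have hin : ∀ j, j ≤ 2 ^ k → E (2 ^ k + 1 + j) ≤ E (2 ^ k + 1) * Real.exp (8.01 / k) := by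
    intro j hj
    refine le_trans (hgrow j hj) (mul_le_mul_of_nonneg_left ?_ (hE0 _))
    exact le_trans (pow_le_pow_right₀ hr1 (hcardle j hj)) hexp
  set B : ℝ := E (2 ^ k + 1) * Real.exp (8.01 / k) with hB
  have hB0 : 0 ≤ B := mul_nonneg (hE0 _) (Real.exp_pos _).le
  have hcost : ∀ j, j ≤ 2 ^ k → G (2 ^ k + 1 + j) ≤
      G (2 ^ k + 1) + ((Ioc (2 ^ k) (2 ^ k + j)).filter Nat.Prime).card * (4 / 3 * B / (2 ^ k) ^ 2) := by
    intro j
    induction j with
    | zero => intro _; simp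
    | succ j ih =>
      intro hj
      have h1 := ih (by omega)
      have h2 := hG (2 ^ k + 1 + j) (by omega)
      have h3 : Ioc (2 ^ k) (2 ^ k + (j + 1)) = insert (2 ^ k + 1 + j) (Ioc (2 ^ k) (2 ^ k + j)) := by
        ext a
        simp only [mem_Ioc, mem_insert]
        omega
      have h4 : (2 ^ k + 1 + j) ∉ (Ioc (2 ^ k) (2 ^ k + j)).filter Nat.Prime := by
        simp only [mem_filter, mem_Ioc]
        omega
      rw [h3, Finset.filter_insert]
      have h5 : 2 ^ k + 1 + (j + 1) = 2 ^ k + 1 + j + 1 := by ring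
      rw [h5]
      split_ifs with hpr
      · rw [Finset.card_insert_of_notMem h4]
        rw [if_pos hpr] at h2
        have h6 := hin j (by omega)
        have h7 : 4 / 3 * E (2 ^ k + 1 + j) / (((2 ^ k + 1 + j : ℕ) : ℝ) - 1) ^ 2 ≤
            4 / 3 * B / (2 ^ k) ^ 2 := by
          have h8 : (2 : ℝ) ^ k ≤ ((2 ^ k + 1 + j : ℕ) : ℝ) - 1 := by
            push_cast
            have : (0 : ℝ) ≤ j := Nat.cast_nonneg j
            linarith
          apply div_le_div₀ (by positivity) (by linarith) (by positivity)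
          exact pow_le_pow_left₀ h2k.le h8 2
        push_cast at h7 h2 ⊢
        linarith
      · rw [if_neg hpr, add_zero] at h2
        exact le_trans h2 h1
  have hend : 2 ^ (k + 1) + 1 = 2 ^ k + 1 + 2 ^ k := by rw [pow_succ]; ring
  rw [hend]
  refine ⟨hin _ le_rfl, le_trans (hcost _ le_rfl) ?_⟩
  have h1 := hcardle (2 ^ k) le_rfl
  have h2 : (((Ioc (2 ^ k) (2 ^ k + 2 ^ k)).filter Nat.Prime).card : ℝ) * (4 / 3 * B / (2 ^ k) ^ 2) ≤
      8 / 3 * B / (k * 2 ^ k) := by
    have h3 : (((Ioc (2 ^ k) (2 ^ k + 2 ^ k)).filter Nat.Prime).card : ℝ) ≤ P := by exact_mod_cast h1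
    have h4 : (((Ioc (2 ^ k) (2 ^ k + 2 ^ k)).filter Nat.Prime).card : ℝ) * (4 / 3 * B / (2 ^ k) ^ 2) ≤
        P * (4 / 3 * B / (2 ^ k) ^ 2) := mul_le_mul_of_nonneg_right h3 (by positivity)
    refine le_trans h4 ?_
    rw [le_div_iff₀ (by positivity)]
    have h5 : (P : ℝ) * (4 / 3 * B / (2 ^ k) ^ 2) * (k * 2 ^ k) = (k * P) * (4 / 3 * B) / 2 ^ k := by
      field_simp
    rw [h5, div_le_iff₀ h2k]
    nlinarith
  linarith

/-- the new weights -/
noncomputable def W1 (n : ℕ) (W : ℕ → ℝ) (p : ℕ) : ℝ := if p < n then W p else 1 / ((p : ℝ) - 1)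

/-- the new thresholds -/
noncomputable def t1 (n : ℕ) (t : ℕ → ℝ) (p : ℕ) : ℝ := if p < n then t p else ((p : ℝ) - 1) / 4

/-- TAI -/
theorem tai (hCHB : ChbStmt) (hDDP : DdpStmt) (hDDS : DdsStmt) (hWTB : WtbStmt) : TaiStmt := by
  obtain ⟨hD1, hD2, hD3, hD4⟩ := hDDP
  obtain ⟨hW, -, -, -⟩ := hWTB
  intro c C n k0 κ m M1 M2 T e0 hk0 hn he0 he2 hκ hInv N
  obtain ⟨W, t, hG, -, -, hM2, hT⟩ := hInv
  have hn2 : 2 ^ 15 < n := lt_of_le_of_lt (Nat.pow_le_pow_right (by norm_num) hk0) hn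
  set W' : ℕ → ℝ := W1 n W with hW'
  set t' : ℕ → ℝ := t1 n t with ht'
  have hWlt : ∀ p, p < n → W' p = W p := fun p hp => by rw [hW', W1, if_pos hp]
  have htlt : ∀ p, p < n → t' p = t p := fun p hp => by rw [ht', t1, if_pos hp]
  have hWge : ∀ p, n ≤ p → W' p = 1 / ((p : ℝ) - 1) := fun p hp => by rw [hW', W1, if_neg (by omega)]
  have htge : ∀ p, n ≤ p → t' p = ((p : ℝ) - 1) / 4 := fun p hp => by rw [ht', t1, if_neg (by omega)]
  have hp1 : ∀ p, n ≤ p → (32767 : ℝ) ≤ (p : ℝ) - 1 := by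
    intro p hp
    have : 32768 ≤ p := by omega
    have : (32768 : ℝ) ≤ p := by exact_mod_cast this
    linarith
  have hWt : ∀ p, n ≤ p → W' p * t' p = 1 / 4 := by
    intro p hp
    rw [hWge p hp, htge p hp]
    have := hp1 p hp
    have h0 : (p : ℝ) - 1 ≠ 0 := by linarith
    field_simp
  have hgood : ∀ p, p.Prime → wt c p ≤ W' p ∧ 0 ≤ t' p ∧ W' p * t' p < 1 ∧
      1 / (1 - W' p * t' p) ≤ p := by
    intro p hp
    by_cases hpn : p < n
    · rw [hWlt p hpn, htlt p hpn]
      exact hG p hpn hp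
    · have hpn' : n ≤ p := by omega
      have h1 := hp1 p hpn'
      refine ⟨?_, ?_, ?_, ?_⟩
      · rw [hWge p hpn']
        exact (hW c p hp.two_le).1
      · rw [htge p hpn']
        linarith
      · rw [hWt p hpn']; norm_num
      · rw [hWt p hpn']
        norm_num
        linarith
  have hν : ∀ p, p.Prime → 0 ≤ nu W' t' p ∧ nu W' t' p ≤ p := by
    intro p hp
    obtain ⟨_, _, h3, h4⟩ := hgood p hp
    exact ⟨one_div_nonneg.2 (by linarith), h4⟩
  have hterm : ∀ p, p.Prime → 0 ≤ term c W' t' p := by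
    intro p hp
    obtain ⟨h1, h2, h3, h4⟩ := hgood p hp
    unfold term
    refine mul_nonneg (div_nonneg (le_trans (wt_nonneg c p) h1) (by linarith)) ?_
    exact DD_nonneg hD2 hD3 c _ p _ hν (fun x => le_max_left _ _)
  have hmono : ∀ a b, a ≤ b → cost c W' t' a ≤ cost c W' t' b := by
    intro a b hab
    induction b, hab using Nat.le_induction with
    | base => exact le_rfl
    | succ b hab ih =>
      rw [cost_succ]
      split_ifs with hb
      · have := hterm b hb
        linarith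
      · linarith
  have hDn : ∀ p ≤ n, ∀ f, DD c (nu W' t') p f = DD c (nu W t) p f := by
    intro p hp f
    apply hD4
    intro q hq _
    unfold nu
    rw [hWlt q (by omega), htlt q (by omega)]
  have hcn : cost c W' t' n = cost c W t n := by
    unfold cost
    apply Finset.sum_congr rfl
    intro p hp
    rw [mem_filter, mem_range] at hp
    rw [hWlt p hp.1, htlt p hp.1, hDn p hp.1.le]
  -- the second moment
  set D2 : ℕ → ℝ := fun p => DD c (nu W' t') p (fun x => (x : ℝ) ^ 2) with hD2def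
  set E : ℕ → ℝ := fun q => D2 (max q n) with hE
  set G : ℕ → ℝ := fun q => cost c W' t' (max q n) with hGdef
  have hE0 : ∀ q, 0 ≤ E q := by
    intro q
    exact DD_nonneg hD2 hD3 c _ _ _ hν (fun x => by positivity)
  have hEstep : ∀ k, 15 ≤ k → ∀ q, 2 ^ k < q →
      E (q + 1) ≤ E q * (if q.Prime then 1 + 4.001 / 2 ^ k else 1) := by
    intro k hk q hq
    by_cases hqn : q < n
    · have h1 : E (q + 1) = E q := by
        simp only [hE]
        rw [max_eq_right (by omega), max_eq_right (by omega)]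
      rw [h1]
      have : (1 : ℝ) ≤ if q.Prime then 1 + 4.001 / 2 ^ k else 1 := by
        split_ifs
        · have : (0 : ℝ) ≤ 4.001 / 2 ^ k := by positivity
          linarith
        · exact le_rfl
      nlinarith [hE0 q]
    · have hqn' : n ≤ q := by omega
      have h1 : E (q + 1) = D2 (q + 1) := by simp only [hE]; rw [max_eq_left (by omega)]
      have h2 : E q = D2 q := by simp only [hE]; rw [max_eq_left (by omega)]
      rw [h1, h2]
      have hD2q : 0 ≤ D2 q := by rw [← h2]; exact hE0 q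
      split_ifs with hp
      · have h3 := (hDDS c (nu W' t') q hp (fun p _ hp => hν p hp)).2.1
        have h4 : D2 (q + 1) = D2 q * (1 + nu W' t' q * wt2 c q) := h3
        rw [h4]
        apply mul_le_mul_of_nonneg_left _ hD2q
        have h5 : nu W' t' q = 4 / 3 := by
          unfold nu
          rw [hWt q hqn']
          norm_num
        have h6 := (hW c q hp.two_le).2
        have h7 : (2 : ℝ) ^ k ≤ (q : ℝ) - 1 := by
          have : 2 ^ k + 1 ≤ q := hq
          have : ((2 ^ k + 1 : ℕ) : ℝ) ≤ q := by exact_mod_cast this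
          push_cast at this
          linarith
        have h8 : (2 : ℝ) ^ 15 ≤ 2 ^ k := pow_le_pow_right₀ (by norm_num) hk
        have h9 : (3 * (q : ℝ) - 1) / ((q : ℝ) - 1) ^ 2 ≤ 3.0007 / 2 ^ k := by
          set z : ℝ := (q : ℝ) - 1 with hz
          have hq' : (q : ℝ) = z + 1 := by rw [hz]; ring
          have hzpos : 0 < z := by nlinarith
          rw [hq', div_le_div_iff₀ (by positivity) (by positivity)]
          have h10 : (3 * (z + 1) - 1) ≤ 3.0007 * z := by nlinarith
          have h11 : (3 * (z + 1) - 1) * 2 ^ k ≤ (3.0007 * z) * z := by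
            apply mul_le_mul h10 h7 (by positivity) (by positivity)
          nlinarith
        rw [h5]
        have h10 : (4 : ℝ) / 3 * (3.0007 / 2 ^ k) ≤ 4.001 / 2 ^ k := by
          rw [← mul_div_assoc]
          apply div_le_div_of_nonneg_right _ (by positivity)
          norm_num
        linarith
      · rw [mul_one]
        apply le_of_eq
        simp only [hD2def, DD, if_neg hp]
  have hGstep : ∀ q, G (q + 1) ≤ G q + if q.Prime then 4 / 3 * E q / ((q : ℝ) - 1) ^ 2 else 0 := by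
    intro q
    by_cases hqn : q < n
    · have h1 : G (q + 1) = G q := by
        simp only [hGdef]
        rw [max_eq_right (by omega), max_eq_right (by omega)]
      rw [h1]
      split_ifs
      · have : 0 ≤ 4 / 3 * E q / ((q : ℝ) - 1) ^ 2 := by
          have := hE0 q
          positivity
        linarith
      · linarith
    · have hqn' : n ≤ q := by omega
      have h1 : G (q + 1) = cost c W' t' (q + 1) := by simp only [hGdef]; rw [max_eq_left (by omega)]
      have h2 : G q = cost c W' t' q := by simp only [hGdef]; rw [max_eq_left (by omega)]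
      have h3 : E q = D2 q := by simp only [hE]; rw [max_eq_left (by omega)]
      rw [h1, h2, h3, cost_succ]
      split_ifs with hp
      · have hz := hp1 q hqn'
        have h4 : term c W' t' q ≤ 4 / 3 * D2 q / ((q : ℝ) - 1) ^ 2 := by
          unfold term
          rw [hWt q hqn', hWge q hqn', htge q hqn']
          have h5 : DD c (nu W' t') q (fun x => max 0 ((x : ℝ) - ((q : ℝ) - 1) / 4)) ≤
              DD c (nu W' t') q (fun x => (1 / ((q : ℝ) - 1)) * (x : ℝ) ^ 2 + 0 * 0) := by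
            apply hD2 c (nu W' t') q _ _ (fun p _ hp => hν p hp)
            intro x _
            apply max_le
            · have : 0 ≤ 1 / ((q : ℝ) - 1) := one_div_nonneg.2 (by linarith)
              positivity
            · rw [mul_zero, add_zero, one_div, inv_mul_eq_div, le_div_iff₀ (by linarith)]
              nlinarith [sq_nonneg ((x : ℝ) - ((q : ℝ) - 1) / 2)]
          rw [hD1 c (nu W' t') q (fun x => (x : ℝ) ^ 2) (fun _ => 0)] at h5
          rw [zero_mul, add_zero] at h5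
          have h6 : (0 : ℝ) ≤ 1 / ((q : ℝ) - 1) / (1 - 1 / 4) :=
            div_nonneg (one_div_nonneg.2 (by linarith)) (by norm_num)
          refine le_trans (mul_le_mul_of_nonneg_left h5 h6) (le_of_eq ?_)
          have h0 : (q : ℝ) - 1 ≠ 0 := by linarith
          show 1 / ((q : ℝ) - 1) / (1 - 1 / 4) * (1 / ((q : ℝ) - 1) * D2 q) = _
          field_simp
          ring
        linarith
      · linarith
  have hA : (SC : ℝ) * E (2 ^ k0 + 1) ≤ M2 := by
    have : E (2 ^ k0 + 1) = DD c (nu W t) n (fun x => (x : ℝ) ^ 2) := by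
      simp only [hE]
      rw [max_eq_right (by omega)]
      exact hDn n le_rfl _
    rw [this]
    exact hM2
  have hG0 : (SC : ℝ) * G (2 ^ k0 + 1) ≤ T := by
    have : G (2 ^ k0 + 1) = cost c W t n := by
      simp only [hGdef]
      rw [max_eq_right (by omega)]
      exact hcn
    rw [this]
    exact hT
  set A : ℝ := E (2 ^ k0 + 1) with hAdef
  have hA0 : 0 ≤ A := hE0 _
  have hk0pos : (0 : ℝ) < k0 := by
    have : 0 < k0 := by omega
    exact_mod_cast this
  have he0pos : 0 < e0 := lt_of_lt_of_le (Real.exp_pos _) he0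
  -- all blocks
  have hall : ∀ j, E (2 ^ (k0 + j) + 1) ≤ A * e0 ^ j ∧
      G (2 ^ (k0 + j) + 1) ≤ G (2 ^ k0 + 1) +
        8 / 3 * A * e0 / (k0 * 2 ^ k0) * ∑ i ∈ range j, (e0 / 2) ^ i := by
    intro j
    induction j with
    | zero =>
      simp only [add_zero, pow_zero, mul_one, Finset.range_zero, Finset.sum_empty, mul_zero]
      exact ⟨le_rfl, le_rfl⟩
    | succ j ih =>
      obtain ⟨ih1, ih2⟩ := ih
      have hb := block E G hE0 (k0 + j) (by omega) (hCHB (k0 + j))
        (hEstep (k0 + j) (by omega)) (fun q _ => hGstep q)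
      obtain ⟨hb1, hb2⟩ := hb
      have hex : Real.exp (8.01 / ((k0 + j : ℕ) : ℝ)) ≤ e0 := by
        refine le_trans (Real.exp_le_exp.2 ?_) he0
        apply div_le_div_of_nonneg_left (by norm_num) hk0pos
        exact_mod_cast (by omega : k0 ≤ k0 + j)
      have hprod : E (2 ^ (k0 + j) + 1) * Real.exp (8.01 / ((k0 + j : ℕ) : ℝ)) ≤ A * e0 ^ j * e0 := by
        apply mul_le_mul ih1 hex (Real.exp_pos _).le
        positivity
      rw [← add_assoc]
      refine ⟨?_, ?_⟩
      · rw [pow_succ e0 j, ← mul_assoc]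
        exact le_trans hb1 hprod
      · rw [Finset.sum_range_succ, mul_add]
        have h1 : 8 / 3 * (E (2 ^ (k0 + j) + 1) * Real.exp (8.01 / ((k0 + j : ℕ) : ℝ))) /
            (((k0 + j : ℕ) : ℝ) * 2 ^ (k0 + j)) ≤ 8 / 3 * A * e0 / (k0 * 2 ^ k0) * (e0 / 2) ^ j := by
          have h2 : 8 / 3 * A * e0 / (k0 * 2 ^ k0) * (e0 / 2) ^ j =
              8 / 3 * (A * e0 ^ j * e0) / (k0 * 2 ^ (k0 + j)) := by
            rw [div_pow, pow_add]
            field_simp
          rw [h2]
          apply div_le_div₀ (by positivity) (by linarith) (by positivity)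
          apply mul_le_mul_of_nonneg_right _ (by positivity)
          exact_mod_cast (by omega : k0 ≤ k0 + j)
        linarith
  -- geometric series
  have hgeo : ∀ j, ∑ i ∈ range j, (e0 / 2) ^ i ≤ 1 / (1 - e0 / 2) := by
    intro j
    have h1 : e0 / 2 < 1 := by linarith
    have h2 : (0 : ℝ) ≤ e0 / 2 := by linarith
    rw [le_div_iff₀ (by linarith), geom_sum_mul_neg]
    have : 0 ≤ (e0 / 2) ^ j := by positivity
    linarith
  refine ⟨W', t', fun p _ hp => hgood p hp, ?_⟩
  obtain ⟨j, hj⟩ : ∃ j, N ≤ 2 ^ (k0 + j) + 1 := ⟨N, by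
    have : N < 2 ^ N := Nat.lt_two_pow_self
    have h2 : 2 ^ N ≤ 2 ^ (k0 + N) := Nat.pow_le_pow_right (by norm_num) (by omega)
    omega⟩
  have h1 : cost c W' t' N ≤ G (2 ^ (k0 + j) + 1) := hmono _ _ (le_trans hj (le_max_left _ _))
  have h2 := (hall j).2
  have h3 := hgeo j
  have hpos : (0 : ℝ) ≤ 8 / 3 * A * e0 / (k0 * 2 ^ k0) := by positivity
  have h4 : 8 / 3 * A * e0 / (k0 * 2 ^ k0) * ∑ i ∈ range j, (e0 / 2) ^ i ≤ A * κ / (k0 * 2 ^ k0) := by
    refine le_trans (mul_le_mul_of_nonneg_left h3 hpos) ?_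
    rw [div_mul_div_comm, mul_one, div_le_div_iff₀ (by
      have : (0 : ℝ) < 1 - e0 / 2 := by linarith
      positivity) (by positivity)]
    have h5 : 8 / 3 * A * e0 ≤ A * (κ * (1 - e0 / 2)) := by
      have := mul_le_mul_of_nonneg_left hκ hA0
      linarith
    have h6 : (0 : ℝ) ≤ k0 * 2 ^ k0 := by positivity
    nlinarith [mul_le_mul_of_nonneg_right h5 h6]
  have hSC : (0 : ℝ) < SC := by
    unfold SC
    norm_num
  have h5 : (SC : ℝ) * cost c W' t' N ≤ SC * G (2 ^ k0 + 1) + (SC * A) * κ / (k0 * 2 ^ k0) := by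
    have h6 : cost c W' t' N ≤ G (2 ^ k0 + 1) + A * κ / (k0 * 2 ^ k0) := by linarith
    have h7 := mul_le_mul_of_nonneg_left h6 hSC.le
    have h8 : (SC : ℝ) * (G (2 ^ k0 + 1) + A * κ / (k0 * 2 ^ k0)) =
        SC * G (2 ^ k0 + 1) + (SC * A) * κ / (k0 * 2 ^ k0) := by ring
    linarith
  have h6 : ((SC : ℝ) * A) * κ / (k0 * 2 ^ k0) ≤ M2 * κ / (k0 * 2 ^ k0) := by
    apply div_le_div_of_nonneg_right _ (by positivity)
    exact mul_le_mul_of_nonneg_right hA (Nat.cast_nonneg κ)
  linarith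

end Pool.Agent.COV.H91
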