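import Pool.Agent.COV.StmtsA

set_option autoImplicit false

/-!
# Row GEL of squad COV

Proof by an ultraproduct: if there is no `R`, then every nonzero `R` has a complex point `a` with
`Cov n (sext a)` and `R(a) ≠ 0`; in the ultraproduct of copies of `ℂ` over the nonzero `R` (an ultrafilter
that contains all sets of multiples of a fixed `R`) this gives a point with algebraically independent
coordinates and `Cov n (sext a)`, against GNC.
-/

namespace Pool.Agent.COV.H91

open Polynomial

/-- clearing denominators -/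
theorem indep_of (L : Type) [Field L] [Algebra ℚ L] (a : Fin 7 → L)
    (h : ∀ R : MvPolynomial (Fin 7) ℤ, R ≠ 0 → MvPolynomial.eval₂ (Int.castRingHom L) a R ≠ 0) :
    AlgebraicIndependent ℚ a := by
  rw [algebraicIndependent_iff]
  intro r hr
  by_contra hne
  letI : Algebra (MvPolynomial (Fin 7) ℤ) (MvPolynomial (Fin 7) ℚ) := MvPolynomial.algebraMvPolynomial
  letI := MvPolynomial.isLocalization (σ := Fin 7) (nonZeroDivisors ℤ) ℚ
  obtain ⟨⟨R, d⟩, hd⟩ := IsLocalization.surj
    ((nonZeroDivisors ℤ).map (MvPolynomial.C : ℤ →+* MvPolynomial (Fin 7) ℤ)) r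
  obtain ⟨e, he, hde⟩ := Submonoid.mem_map.1 d.2
  have he0 : e ≠ 0 := nonZeroDivisors.ne_zero he
  simp only [← hde] at hd
  have hd' : r * MvPolynomial.C ((e : ℤ) : ℚ) = MvPolynomial.map (algebraMap ℤ ℚ) R := by
    rw [← MvPolynomial.algebraMap_def, ← hd]
    simp [MvPolynomial.algebraMap_def]
  have hR : R ≠ 0 := by
    rintro rfl
    rw [map_zero] at hd'
    rcases mul_eq_zero.1 hd' with h1 | h1
    · exact hne h1
    · rw [MvPolynomial.C_eq_zero] at h1
      exact he0 (by exact_mod_cast h1)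
  refine h R hR ?_
  have h2 : MvPolynomial.aeval a (MvPolynomial.map (algebraMap ℤ ℚ) R) =
      MvPolynomial.eval₂ (Int.castRingHom L) a R := by
    rw [MvPolynomial.aeval_map_algebraMap, MvPolynomial.aeval_def]
    congr 1
  rw [← h2, ← hd', map_mul, hr, zero_mul]

/-- the image of a polynomial of bounded degree given by coefficients -/
noncomputable def bp {R : Type} [CommRing R] (n : ℕ) (c : ℕ → R) : R[X] :=
  ∑ i ∈ Finset.range (n + 1), C (c i) * X ^ i

theorem bp_map {R S : Type} [CommRing R] [CommRing S] (φ : R →+* S) (n : ℕ) (c : ℕ → R) :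
    (bp n c).map φ = bp n fun i => φ (c i) := by
  simp [bp, Polynomial.map_sum]

theorem bp_coeff {R : Type} [CommRing R] (n : ℕ) (P : R[X]) (h : P.natDegree ≤ n) :
    bp n (fun i => P.coeff i) = P := by
  rw [bp, ← Polynomial.as_sum_range_C_mul_X_pow' P (Nat.lt_succ_of_le h)]

theorem bp_natDegree {R : Type} [CommRing R] (n : ℕ) (c : ℕ → R) : (bp n c).natDegree ≤ n := by
  rw [bp]
  refine Polynomial.natDegree_sum_le_of_forall_le _ _ fun i hi => ?_
  exact (Polynomial.natDegree_C_mul_X_pow_le _ _).trans (by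
    have := Finset.mem_range.1 hi; omega)

theorem wr_map {k l : Type} [Field k] [Field l] (φ : k →+* l) (P Q : k[X]) :
    (wr P Q).map φ = wr (P.map φ) (Q.map φ) := by
  simp [wr, Polynomial.map_sub, Polynomial.map_mul, Polynomial.derivative_map]

theorem sext_map {R S : Type} [CommRing R] [CommRing S] (φ : R →+* S) (a : Fin 7 → R) :
    (TTC.sext a).map φ = TTC.sext fun i => φ (a i) := by
  simp [TTC.sext, Polynomial.map_add, Polynomial.map_mul]

/-- Cov with a bound for V -/
theorem cov_bound {k : Type} [Field k] (n : ℕ) (F : k[X]) (h : Cov n F) :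
    ∃ (j : k) (P Q V : k[X]), j ≠ 0 ∧ j ≠ 1 ∧ P.natDegree ≤ n ∧ Q.natDegree ≤ n ∧ wr P Q ≠ 0 ∧
      V.natDegree ≤ 2 * n ∧ F * V ^ 2 = P * Q * (P - Q) * (P - C j * Q) := by
  obtain ⟨j, P, Q, V, h0, h1, hP, hQ, hw, he⟩ := h
  by_cases hF : F = 0
  · refine ⟨j, P, Q, 0, h0, h1, hP, hQ, hw, by simp, ?_⟩
    rw [← he, hF]; simp
  · refine ⟨j, P, Q, V, h0, h1, hP, hQ, hw, ?_, he⟩
    by_cases hV : V = 0
    · simp [hV]
    have hd : (F * V ^ 2).natDegree = F.natDegree + 2 * V.natDegree := by
      rw [Polynomial.natDegree_mul hF (pow_ne_zero 2 hV), Polynomial.natDegree_pow]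
    have hu : (P * Q * (P - Q) * (P - C j * Q)).natDegree ≤ n + n + n + n := by
      refine Polynomial.natDegree_mul_le_of_le (Polynomial.natDegree_mul_le_of_le
        (Polynomial.natDegree_mul_le_of_le hP hQ) ?_) ?_
      · exact (Polynomial.natDegree_sub_le _ _).trans (max_le hP hQ)
      · refine (Polynomial.natDegree_sub_le _ _).trans (max_le hP ?_)
        exact (Polynomial.natDegree_C_mul_le _ _).trans hQ
    rw [← he, hd] at hu
    omega

/-- field extensions -/
theorem cov_map {k l : Type} [Field k] [Field l] (φ : k →+* l) (n : ℕ) (F : k[X])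
    (h : Cov n F) : Cov n (F.map φ) := by
  obtain ⟨j, P, Q, V, h0, h1, hP, hQ, hw, he⟩ := h
  refine ⟨φ j, P.map φ, Q.map φ, V.map φ, ?_, ?_, ?_, ?_, ?_, ?_⟩
  · exact (map_ne_zero φ).2 h0
  · intro h; apply h1; apply φ.injective; simpa using h
  · rw [Polynomial.natDegree_map]; exact hP
  · rw [Polynomial.natDegree_map]; exact hQ
  · rw [← wr_map]
    exact (Polynomial.map_ne_zero_iff φ.injective).2 hw
  · have := congrArg (Polynomial.map φ) he
    simpa [Polynomial.map_mul, Polynomial.map_sub, Polynomial.map_pow] using this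

section UP

variable {I : Type} (φ : Ultrafilter I)

/-- the ultraproduct -/
abbrev UL : Type := Filter.Germ (φ : Filter I) ℂ

noncomputable def pi' : (I → ℂ) →+* UL φ := Filter.Germ.coeRingHom (φ : Filter I)

theorem pi'_eq (x y : I → ℂ) : pi' φ x = pi' φ y ↔ ∀ᶠ i in (φ : Filter I), x i = y i := by
  have : pi' φ x = ((x : I → ℂ) : Filter.Germ (φ : Filter I) ℂ) := rfl
  have h2 : pi' φ y = ((y : I → ℂ) : Filter.Germ (φ : Filter I) ℂ) := rfl
  rw [this, h2, Filter.Germ.coe_eq]
  rfl

theorem poly_ext (P Q : (I → ℂ)[X])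
    (h : ∀ i, P.map (Pi.evalRingHom (fun _ => ℂ) i) = Q.map (Pi.evalRingHom (fun _ => ℂ) i)) :
    P = Q := by
  ext m i
  have := congrArg (fun R => R.coeff m) (h i)
  simpa [Polynomial.coeff_map] using this

theorem poly_ne (P : (I → ℂ)[X])
    (h : ∀ i, P.map (Pi.evalRingHom (fun _ => ℂ) i) ≠ 0) : P.map (pi' φ) ≠ 0 := by
  intro h0
  have h1 : ∀ m, ∀ᶠ i in (φ : Filter I), P.coeff m i = 0 := by
    intro m
    have h2 : pi' φ (P.coeff m) = 0 := by
      have := congrArg (fun R => R.coeff m) h0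
      simpa [Polynomial.coeff_map] using this
    rw [← map_zero (pi' φ), pi'_eq] at h2
    exact h2
  have h3 : ∀ᶠ i in (φ : Filter I), ∀ m ∈ Finset.range (P.natDegree + 1), P.coeff m i = 0 := by
    rw [Filter.eventually_all_finset]
    exact fun m _ => h1 m
  obtain ⟨i, hi⟩ := h3.exists
  apply h i
  ext m
  rw [Polynomial.coeff_map, Polynomial.coeff_zero]
  by_cases hm : m ≤ P.natDegree
  · exact hi m (Finset.mem_range.2 (by omega))
  · rw [Polynomial.coeff_eq_zero_of_natDegree_lt (by omega)]; rfl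

theorem cov_up (n : ℕ) (a : I → Fin 7 → ℂ) (h : ∀ i, Cov n (TTC.sext (a i))) :
    Cov n (TTC.sext fun m => pi' φ fun i => a i m) := by
  choose j P Q V h0 h1 hP hQ hw hV he using fun i => cov_bound n _ (h i)
  set jj : I → ℂ := j with hjj
  set PP : (I → ℂ)[X] := bp n fun m i => (P i).coeff m with hPP
  set QQ : (I → ℂ)[X] := bp n fun m i => (Q i).coeff m with hQQ
  set VV : (I → ℂ)[X] := bp (2 * n) fun m i => (V i).coeff m with hVV
  have eP : ∀ i, PP.map (Pi.evalRingHom (fun _ => ℂ) i) = P i := fun i => by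
    rw [hPP, bp_map]; exact bp_coeff n (P i) (hP i)
  have eQ : ∀ i, QQ.map (Pi.evalRingHom (fun _ => ℂ) i) = Q i := fun i => by
    rw [hQQ, bp_map]; exact bp_coeff n (Q i) (hQ i)
  have eV : ∀ i, VV.map (Pi.evalRingHom (fun _ => ℂ) i) = V i := fun i => by
    rw [hVV, bp_map]; exact bp_coeff (2 * n) (V i) (hV i)
  have key : TTC.sext (fun m i => a i m) * VV ^ 2 = PP * QQ * (PP - QQ) * (PP - C jj * QQ) := by
    apply poly_ext
    intro i
    have e1 : (TTC.sext (fun m i => a i m) : (I → ℂ)[X]).map (Pi.evalRingHom (fun _ => ℂ) i) =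
        TTC.sext (a i) := by
      rw [sext_map]; rfl
    simp only [Polynomial.map_mul, Polynomial.map_sub, Polynomial.map_pow, Polynomial.map_C]
    rw [e1, eP, eQ, eV]
    exact he i
  refine ⟨pi' φ jj, PP.map (pi' φ), QQ.map (pi' φ), VV.map (pi' φ), ?_, ?_, ?_, ?_, ?_, ?_⟩
  · intro hz
    rw [← map_zero (pi' φ), pi'_eq] at hz
    obtain ⟨i, hi⟩ := hz.exists
    exact h0 i hi
  · intro hz
    rw [← map_one (pi' φ), pi'_eq] at hz
    obtain ⟨i, hi⟩ := hz.exists
    exact h1 i hi
  · rw [hPP, bp_map]; exact bp_natDegree _ _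
  · rw [hQQ, bp_map]; exact bp_natDegree _ _
  · have hne := poly_ne φ (derivative PP * QQ - PP * derivative QQ) (by
      intro i
      rw [Polynomial.map_sub, Polynomial.map_mul, Polynomial.map_mul, ← Polynomial.derivative_map,
        ← Polynomial.derivative_map, eP, eQ]
      exact hw i)
    rw [Polynomial.map_sub, Polynomial.map_mul, Polynomial.map_mul, ← Polynomial.derivative_map,
        ← Polynomial.derivative_map] at hne
    exact hne
  · have := congrArg (Polynomial.map (pi' φ)) key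
    rw [Polynomial.map_mul, sext_map] at this
    simpa [Polynomial.map_mul, Polynomial.map_sub, Polynomial.map_pow] using this

end UP

theorem gel (hG : GncStmt) : GelStmt := by
  intro n
  by_contra hcon
  push Not at hcon
  let I : Type := {R : MvPolynomial (Fin 7) ℤ // R ≠ 0}
  have hc : ∀ R : I, ∃ a : Fin 7 → ℂ, Cov n (TTC.sext a) ∧ MvPolynomial.aeval a R.1 ≠ 0 :=
    fun R => hcon R.1 R.2
  choose a ha hne using hc
  -- the filter
  let S : I → Set I := fun R => {T | R.1 ∣ T.1}
  let F : Filter I := ⨅ R, Filter.principal (S R)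
  have hdir : Directed (· ≥ ·) fun R => Filter.principal (S R) := by
    intro R T
    refine ⟨⟨R.1 * T.1, mul_ne_zero R.2 T.2⟩, ?_, ?_⟩
    · exact Filter.principal_mono.2 fun U hU => (Dvd.intro _ rfl).trans hU
    · exact Filter.principal_mono.2 fun U hU => (Dvd.intro_left _ rfl).trans hU
  haveI hI : Nonempty I := ⟨⟨1, one_ne_zero⟩⟩
  haveI hF : F.NeBot := by
    refine Filter.iInf_neBot_of_directed' hdir fun R => ?_
    rw [Filter.principal_neBot_iff]
    exact ⟨R, dvd_rfl⟩
  let φ : Ultrafilter I := Ultrafilter.of F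
  have hφ : ∀ R : I, ∀ᶠ T in (φ : Filter I), R.1 ∣ T.1 := by
    intro R
    have h1 : S R ∈ F := Filter.mem_iInf_of_mem R (Filter.mem_principal_self _)
    exact Ultrafilter.of_le F h1
  let L := UL φ
  let L' := AlgebraicClosure (UL φ)
  let ι : UL φ →+* L' := algebraMap (UL φ) L'
  haveI hz : CharZero (UL φ) := by
    have hinj : Function.Injective ((pi' φ).comp (Pi.constRingHom I ℂ)) :=
      RingHom.injective _
    exact charZero_of_injective_ringHom hinj
  haveI hz' : CharZero L' := charZero_of_injective_ringHom ι.injective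
  letI alg : Algebra ℚ L' := DivisionRing.toRatAlgebra
  let b : Fin 7 → UL φ := fun m => pi' φ fun i => a i m
  have hcov : Cov n (TTC.sext fun m => ι (b m)) := by
    rw [← sext_map]
    exact cov_map ι n _ (cov_up φ n a ha)
  refine @hG L' _ alg _ (fun m => ι (b m)) ?_ n hcov
  refine @indep_of L' _ alg _ fun R hR => ?_
  intro h0
  have h1 : MvPolynomial.eval₂ (Int.castRingHom L') (fun m => ι (b m)) R =
      ι (MvPolynomial.eval₂ (Int.castRingHom (UL φ)) b R) := by
    have hs : ι.comp (Int.castRingHom (UL φ)) = Int.castRingHom L' := Subsingleton.elim _ _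
    rw [MvPolynomial.hom_eval₂, hs]
  rw [h1, map_eq_zero] at h0
  have h2 : MvPolynomial.eval₂ (Int.castRingHom (UL φ)) b R =
      pi' φ fun i => MvPolynomial.aeval (a i) R := by
    have h3 : (fun i => MvPolynomial.aeval (a i) R) =
        MvPolynomial.eval₂ (Int.castRingHom (I → ℂ)) (fun m => (fun i => a i m : I → ℂ)) R := by
      funext i
      have h4 : MvPolynomial.aeval (a i) R = (Pi.evalRingHom (fun _ : I => ℂ) i)
          (MvPolynomial.eval₂ (Int.castRingHom (I → ℂ)) (fun m => (fun i => a i m : I → ℂ)) R) := by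
        have hs : (Pi.evalRingHom (fun _ : I => ℂ) i).comp (Int.castRingHom (I → ℂ)) =
          algebraMap ℤ ℂ := Subsingleton.elim _ _
        rw [MvPolynomial.aeval_def, MvPolynomial.hom_eval₂, hs]
        rfl
      rw [h4]; rfl
    have hs : (pi' φ).comp (Int.castRingHom (I → ℂ)) = Int.castRingHom (UL φ) :=
      Subsingleton.elim _ _
    rw [h3, MvPolynomial.hom_eval₂, hs]
  rw [h2, ← map_zero (pi' φ), pi'_eq] at h0
  obtain ⟨T, hT1, hT2⟩ := (h0.and (hφ ⟨R, hR⟩)).exists
  obtain ⟨U, hU⟩ := hT2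
  apply hne T
  rw [hU, map_mul]
  have : MvPolynomial.aeval (a T) R = 0 := hT1
  rw [this, zero_mul]

end Pool.Agent.COV.H91
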